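import Mathlib

/-!
# Odd covers of `E(K_n) × E(K_n)` by products of complete bipartite graphs

Definitions for `MP_cb2837_co`.
-/

namespace Pool.Agent.R71.OC

/-- `E(A,B)`: the edges with one end in `A` and the other in `B`. -/
def bip {n : ℕ} (A B : Finset (Fin n)) : Set (Sym2 (Fin n)) :=
  {e | ∃ x ∈ A, ∃ y ∈ B, e = s(x, y)}

/-- The data of a product `E(A,B) × E(C,D)` of complete bipartite subgraphs of `K_n`:
`A, B` are disjoint and nonempty, and so are `C, D`. -/
structure Box (n : ℕ) where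
  A : Finset (Fin n)
  B : Finset (Fin n)
  C : Finset (Fin n)
  D : Finset (Fin n)
  hA : A.Nonempty
  hB : B.Nonempty
  hC : C.Nonempty
  hD : D.Nonempty
  hAB : Disjoint A B
  hCD : Disjoint C D

/-- The product `E(A,B) × E(C,D)` as a set of pairs of edges. -/
def Box.toSet {n : ℕ} (P : Box n) : Set (Sym2 (Fin n) × Sym2 (Fin n)) :=
  bip P.A P.B ×ˢ bip P.C P.D

/-- `P` is an odd cover of `E(K_n) × E(K_n)`: each pair of edges of `K_n` lies in an odd number of
the products. -/
def IsOddCover {n : ℕ} {ι : Type} (P : ι → Box n) : Prop :=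
  ∀ e ∈ (⊤ : SimpleGraph (Fin n)).edgeSet, ∀ f ∈ (⊤ : SimpleGraph (Fin n)).edgeSet,
    Odd (Nat.card {i : ι // (e, f) ∈ (P i).toSet})

/-- `g̃(n)`: the least number of members of an odd cover of `E(K_n) × E(K_n)`. -/
noncomputable def gt (n : ℕ) : ℕ :=
  sInf {m : ℕ | ∃ P : Fin m → Box n, IsOddCover P}

end Pool.Agent.R71.OC
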