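import Mathlib
import Pool.Agent.R71.OC.Defs

/-!
# The rank lower bound
-/

namespace Pool.Agent.R71.OC

open Matrix

/-- `J - I` over `F_2`. -/
def JI (N : ℕ) : Matrix (Fin N) (Fin N) (ZMod 2) := Matrix.of fun x y => if x = y then 0 else 1

lemma JI_mul (N : ℕ) (x y : Fin N) :
    (JI N * JI N) x y = if x = y then (N : ZMod 2) + 1 else (N : ZMod 2) := by
  have h2 : (2 : ZMod 2) = 0 := by decide
  rw [Matrix.mul_apply]
  have h1 : ∀ p : Fin N, JI N x p * JI N p y
      = 1 + (if p = x then 1 else 0) + (if p = y then 1 else 0)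
        + (if p = x then (if p = y then 1 else 0) else 0) := by
    intro p
    simp only [JI, Matrix.of_apply]
    by_cases hx : p = x
    · by_cases hy : p = y
      · subst hx; subst hy; simp; decide
      · subst hx; simp [hy]; decide
    · by_cases hy : p = y
      · subst hy
        have : ¬ x = p := fun h => hx h.symm
        simp [hx]; decide
      · have : ¬ x = p := fun h => hx h.symm
        simp [this, hy, hx]
  rw [Finset.sum_congr rfl (fun p _ => h1 p)]
  rw [Finset.sum_add_distrib, Finset.sum_add_distrib, Finset.sum_add_distrib]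
  by_cases hxy : x = y
  · subst hxy
    simp
    linear_combination h2
  · simp [hxy]
    linear_combination h2

lemma JI_sq_even {N : ℕ} (hN : Even N) : JI N * JI N = 1 := by
  have h0 : (N : ZMod 2) = 0 := by
    rw [ZMod.natCast_eq_zero_iff_even]; exact hN
  ext x y
  rw [JI_mul, h0, Matrix.one_apply]
  simp

lemma JI_sq_odd {N : ℕ} (hN : ¬ Even N) : JI N * JI N = JI N := by
  have h0 : (N : ZMod 2) = 1 := by
    rw [ZMod.natCast_eq_one_iff_odd]; exact Nat.not_even_iff_odd.mp hN
  ext x y
  rw [JI_mul, h0]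
  simp only [JI, Matrix.of_apply]
  have : (1 : ZMod 2) + 1 = 0 := by decide
  simp [this]

/-- The matrix of `E(K_N) × E(K_N)`. -/
def KK (N : ℕ) : Matrix (Fin N × Fin N) (Fin N × Fin N) (ZMod 2) :=
  Matrix.of fun p q => JI N p.1 q.1 * JI N p.2 q.2

lemma KK_mul (N : ℕ) (p q : Fin N × Fin N) :
    (KK N * KK N) p q = (JI N * JI N) p.1 q.1 * (JI N * JI N) p.2 q.2 := by
  rw [Matrix.mul_apply, Matrix.mul_apply, Matrix.mul_apply, Fintype.sum_prod_type,
    Finset.sum_mul_sum]
  refine Finset.sum_congr rfl fun x _ => Finset.sum_congr rfl fun y _ => ?_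
  simp only [KK, Matrix.of_apply]
  ring

lemma KK_sq_even {N : ℕ} (hN : Even N) : KK N * KK N = 1 := by
  ext p q
  rw [KK_mul, JI_sq_even hN, Matrix.one_apply, Matrix.one_apply, Matrix.one_apply]
  by_cases h : p = q
  · subst h; simp
  · rw [if_neg h]
    by_cases h1 : p.1 = q.1
    · have h2 : ¬ p.2 = q.2 := fun h2 => h (Prod.ext h1 h2)
      simp [h2]
    · simp [h1]

lemma KK_sq_odd {N : ℕ} (hN : ¬ Even N) : KK N * KK N = KK N := by
  ext p q
  rw [KK_mul, JI_sq_odd hN]
  rfl

lemma rank_KK_even {N : ℕ} (hN : Even N) : (KK N).rank = N ^ 2 := by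
  have hu : IsUnit (KK N) := IsUnit.of_mul_eq_one _ (KK_sq_even hN)
  rw [Matrix.rank_of_isUnit _ hu, Fintype.card_prod, Fintype.card_fin]
  ring

lemma rank_KK_odd {N : ℕ} (hN : Even N) : N ^ 2 ≤ (KK (N + 1)).rank := by
  have h := rank_KK_even hN
  have hsub : KK N = (KK (N + 1)).submatrix
      (fun p : Fin N × Fin N => (Fin.castSucc p.1, Fin.castSucc p.2))
      (fun p : Fin N × Fin N => (Fin.castSucc p.1, Fin.castSucc p.2)) := by
    ext p q
    simp only [KK, JI, Matrix.of_apply, Matrix.submatrix_apply, Fin.castSucc_inj]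
  rw [hsub] at h
  rw [← h]
  exact Matrix.rank_submatrix_le _ _ _

/-- Left factor. -/
def PM {N : ℕ} {ι : Type} (a b c d : ι → Fin N → ZMod 2) :
    Matrix (Fin N × Fin N) (ι × Fin 4) (ZMod 2) :=
  Matrix.of fun p s => ![a s.1 p.1 * c s.1 p.2, a s.1 p.1 * d s.1 p.2, b s.1 p.1 * c s.1 p.2,
    b s.1 p.1 * d s.1 p.2] s.2

/-- Right factor. -/
def RM {N : ℕ} {ι : Type} (a b c d : ι → Fin N → ZMod 2) :
    Matrix (ι × Fin 4) (Fin N × Fin N) (ZMod 2) :=
  Matrix.of fun s q => ![b s.1 q.1 * d s.1 q.2, b s.1 q.1 * c s.1 q.2, a s.1 q.1 * d s.1 q.2,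
    a s.1 q.1 * c s.1 q.2] s.2

lemma PR {N : ℕ} {ι : Type} [Fintype ι] (a b c d : ι → Fin N → ZMod 2)
    (h : ∀ x y z w : Fin N, ∑ i, (a i x * b i y + b i x * a i y) * (c i z * d i w + d i z * c i w)
      = JI N x y * JI N z w) :
    PM a b c d * RM a b c d = KK N := by
  ext p q
  rw [Matrix.mul_apply, Fintype.sum_prod_type]
  simp only [KK, Matrix.of_apply]
  rw [← h]
  refine Finset.sum_congr rfl fun i _ => ?_
  rw [Fin.sum_univ_four]
  simp only [PM, RM, Matrix.of_apply]
  simp
  ring

theorem rank_bound_even {N : ℕ} {ι : Type} [Fintype ι] (hN : Even N)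
    (a b c d : ι → Fin N → ZMod 2)
    (h : ∀ x y z w : Fin N, ∑ i, (a i x * b i y + b i x * a i y) * (c i z * d i w + d i z * c i w)
      = JI N x y * JI N z w) :
    N ^ 2 ≤ 4 * Fintype.card ι := by
  rw [← rank_KK_even hN, ← PR a b c d h]
  refine (Matrix.rank_mul_le_left _ _).trans ((Matrix.rank_le_card_width _).trans ?_)
  rw [Fintype.card_prod, Fintype.card_fin]
  omega

theorem rank_bound_odd {N : ℕ} {ι : Type} [Fintype ι] (hN : Even N) (hN2 : 2 ≤ N)
    (a b c d : ι → Fin (N + 1) → ZMod 2)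
    (hab : ∀ i x, a i x * b i x = 0)
    (h : ∀ x y z w : Fin (N + 1),
      ∑ i, (a i x * b i y + b i x * a i y) * (c i z * d i w + d i z * c i w)
      = JI (N + 1) x y * JI (N + 1) z w) :
    N ^ 2 + 1 ≤ 4 * Fintype.card ι := by
  classical
  by_contra hlt
  have hodd : ¬ Even (N + 1) := by
    rw [Nat.not_even_iff_odd]; exact hN.add_one
  have hcard : Fintype.card (ι × Fin 4) = 4 * Fintype.card ι := by
    rw [Fintype.card_prod, Fintype.card_fin]; ring
  set P := PM a b c d with hP
  set R := RM a b c d with hR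
  have hPR : P * R = KK (N + 1) := PR a b c d h
  have hrk : N ^ 2 ≤ (P * R).rank := by rw [hPR]; exact rank_KK_odd hN
  have hrP : (P * R).rank ≤ P.rank := Matrix.rank_mul_le_left _ _
  have hrR : (P * R).rank ≤ R.rank := Matrix.rank_mul_le_right _ _
  have hPw : P.rank ≤ 4 * Fintype.card ι := hcard ▸ Matrix.rank_le_card_width P
  have hRw : R.rank ≤ 4 * Fintype.card ι := hcard ▸ Matrix.rank_le_card_height R
  have hPe : P.rank = Fintype.card (ι × Fin 4) := by omega
  have hRe : R.rank = Fintype.card (ι × Fin 4) := by omega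
  have hPinj : Function.Injective P.mulVecLin := by
    rw [← LinearMap.ker_eq_bot]
    have := LinearMap.finrank_range_add_finrank_ker P.mulVecLin
    rw [Module.finrank_fintype_fun_eq_card] at this
    have h0 : Module.finrank (ZMod 2) (LinearMap.ker P.mulVecLin) = 0 := by
      have : Module.finrank (ZMod 2) (LinearMap.range P.mulVecLin) = Fintype.card (ι × Fin 4) := hPe
      omega
    exact Submodule.finrank_eq_zero.mp h0
  have hRsur : Function.Surjective R.mulVecLin := by
    rw [← LinearMap.range_eq_top]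
    apply Submodule.eq_top_of_finrank_eq
    rw [Module.finrank_fintype_fun_eq_card]
    exact hRe
  have hRP : R * P = 1 := by
    have hKK : P * (R * P) * R = P * R := by
      have : (P * R) * (P * R) = P * R := by rw [hPR]; exact KK_sq_odd hodd
      rw [← this]; simp only [Matrix.mul_assoc]
    apply Matrix.ext_of_mulVec_single
    intro s
    obtain ⟨v, hv⟩ := hRsur (Pi.single s 1)
    apply hPinj
    simp only [Matrix.mulVecLin_apply] at hv ⊢
    rw [← hv, Matrix.one_mulVec, Matrix.mulVec_mulVec, Matrix.mulVec_mulVec, Matrix.mulVec_mulVec,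
      hKK]
  have hne : Nonempty ι := by
    rw [← Fintype.card_pos_iff]
    have : 0 < N ^ 2 := by positivity
    omega
  obtain ⟨i⟩ := hne
  have h1 : (R * P) (i, 0) (i, 0) = 1 := by rw [hRP]; simp
  rw [Matrix.mul_apply, Fintype.sum_prod_type] at h1
  have h2 : ∀ y w : Fin (N + 1), R (i, 0) (y, w) * P (y, w) (i, 0) = 0 := by
    intro y w
    simp only [hP, hR, PM, RM, Matrix.of_apply]
    simp
    have := hab i y
    rcases mul_eq_zero.mp this with h | h <;> simp [h]
  simp only [h2, Finset.sum_const_zero] at h1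
  exact absurd h1 (by decide)

end Pool.Agent.R71.OC
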