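import Mathlib
import Pool.Agent.R71.OC.Defs
import Pool.Agent.R71.OC.Lower

/-!
# From odd covers to matrices, and the lower bounds
-/

namespace Pool.Agent.R71.OC

/-- Indicator over `F_2`. -/
def ind {n : ℕ} (A : Finset (Fin n)) (x : Fin n) : ZMod 2 := if x ∈ A then 1 else 0

lemma ind_mul {n : ℕ} {A B : Finset (Fin n)} (h : Disjoint A B) (x : Fin n) :
    ind A x * ind B x = 0 := by
  unfold ind
  by_cases hA : x ∈ A
  · have : x ∉ B := Finset.disjoint_left.mp h hA
    simp [this]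
  · simp [hA]

lemma mem_bip {n : ℕ} {A B : Finset (Fin n)} {x y : Fin n} :
    s(x, y) ∈ bip A B ↔ (x ∈ A ∧ y ∈ B) ∨ (y ∈ A ∧ x ∈ B) := by
  constructor
  · rintro ⟨u, hu, v, hv, h⟩
    rw [Sym2.eq_iff] at h
    rcases h with ⟨rfl, rfl⟩ | ⟨rfl, rfl⟩
    · exact Or.inl ⟨hu, hv⟩
    · exact Or.inr ⟨hu, hv⟩
  · rintro (⟨hu, hv⟩ | ⟨hu, hv⟩)
    · exact ⟨x, hu, y, hv, rfl⟩
    · exact ⟨y, hu, x, hv, Sym2.eq_swap⟩

open Classical in
lemma ind_bip {n : ℕ} {A B : Finset (Fin n)} (h : Disjoint A B) (x y : Fin n) :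
    ind A x * ind B y + ind B x * ind A y = if s(x, y) ∈ bip A B then 1 else 0 := by
  have hx : x ∈ A → x ∉ B := fun h' => Finset.disjoint_left.mp h h'
  have hy : y ∈ A → y ∉ B := fun h' => Finset.disjoint_left.mp h h'
  rw [mem_bip]
  unfold ind
  by_cases h1 : x ∈ A <;> by_cases h2 : x ∈ B <;> by_cases h3 : y ∈ A <;> by_cases h4 : y ∈ B <;>
    simp_all

lemma sum_ind {n : ℕ} {ι : Type} [Fintype ι] {P : ι → Box n} (hP : IsOddCover P)
    (x y z w : Fin n) :
    ∑ i, (ind (P i).A x * ind (P i).B y + ind (P i).B x * ind (P i).A y)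
      * (ind (P i).C z * ind (P i).D w + ind (P i).D z * ind (P i).C w)
      = JI n x y * JI n z w := by
  classical
  have h2 : (2 : ZMod 2) = 0 := by decide
  by_cases hxy : x = y
  · subst hxy
    simp only [JI, Matrix.of_apply, if_true, zero_mul]
    refine Finset.sum_eq_zero fun i _ => ?_
    rw [mul_comm (ind (P i).B x), ind_mul (P i).hAB]; simp
  by_cases hzw : z = w
  · subst hzw
    simp only [JI, Matrix.of_apply, if_true, mul_zero]
    refine Finset.sum_eq_zero fun i _ => ?_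
    rw [mul_comm (ind (P i).D z), ind_mul (P i).hCD]; simp
  simp only [JI, Matrix.of_apply, if_neg hxy, if_neg hzw, mul_one]
  have he : s(x, y) ∈ (⊤ : SimpleGraph (Fin n)).edgeSet := by simp [hxy]
  have hf : s(z, w) ∈ (⊤ : SimpleGraph (Fin n)).edgeSet := by simp [hzw]
  have hodd := hP _ he _ hf
  rw [← ZMod.natCast_eq_one_iff_odd] at hodd
  rw [← hodd, Nat.card_eq_fintype_card, Fintype.card_subtype]
  rw [Finset.card_filter, Nat.cast_sum]
  refine Finset.sum_congr rfl fun i _ => ?_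
  rw [ind_bip (P i).hAB, ind_bip (P i).hCD]
  simp only [Box.toSet, Set.mem_prod]
  by_cases h1 : s(x, y) ∈ bip (P i).A (P i).B <;> by_cases h2 : s(z, w) ∈ bip (P i).C (P i).D <;>
    simp [h1, h2]

lemma lower_even {n : ℕ} {ι : Type} [Fintype ι] {P : ι → Box n} (hP : IsOddCover P)
    (hn : Even n) : (n / 2) ^ 2 ≤ Fintype.card ι := by
  have h := rank_bound_even hn (fun i => ind (P i).A) (fun i => ind (P i).B)
    (fun i => ind (P i).C) (fun i => ind (P i).D) (fun x y z w => sum_ind hP x y z w)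
  obtain ⟨k, rfl⟩ := hn
  have : (k + k) / 2 = k := by omega
  rw [this]
  nlinarith

lemma lower_odd {n : ℕ} {ι : Type} [Fintype ι] {P : ι → Box n} (hP : IsOddCover P)
    (hn : Odd n) (h3 : 3 ≤ n) : (n / 2) ^ 2 + 1 ≤ Fintype.card ι := by
  obtain ⟨k, rfl⟩ := hn
  have h := rank_bound_odd (N := 2 * k) (by simp) (by omega) (fun i => ind (P i).A)
    (fun i => ind (P i).B) (fun i => ind (P i).C) (fun i => ind (P i).D)
    (fun i x => ind_mul (P i).hAB x) (fun x y z w => sum_ind hP x y z w)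
  have : (2 * k + 1) / 2 = k := by omega
  rw [this]
  nlinarith

end Pool.Agent.R71.OC
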