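import Mathlib
import Pool.Agent.R71.OC.Defs
import Pool.Agent.R71.OC.Bridge

/-!
# An odd cover of `K_{8k}` by `4k` complete bipartite graphs, and its square
-/

namespace Pool.Agent.R71.OC

/-- A tournament on `4k` vertices all of whose out-degrees are even (`0` on the diagonal). -/
def rr {K : ℕ} (i j : Fin K) : ZMod 2 :=
  if i = j then 0 else (if i < j then 1 else 0) + ((i : ℕ) + 1 : ZMod 2) * ((j : ℕ) + 1 : ZMod 2)

lemma rr_self {K : ℕ} (i : Fin K) : rr i i = 0 := by simp [rr]

lemma zmod2_add_self (a : ZMod 2) : a + a = 0 := by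
  revert a; decide

lemma rr_swap {K : ℕ} {i j : Fin K} (h : i ≠ j) : rr i j + rr j i = 1 := by
  have h' : j ≠ i := h.symm
  have e : ∀ a : ZMod 2, a + a = 0 := zmod2_add_self
  rcases lt_or_gt_of_ne h with hlt | hlt
  · have : ¬ j < i := not_lt.mpr hlt.le
    simp only [rr, h, h', hlt, this, if_false, if_true]
    linear_combination e (((i : ℕ) + 1 : ZMod 2) * ((j : ℕ) + 1 : ZMod 2))
  · have : ¬ i < j := not_lt.mpr hlt.le
    simp only [rr, h, h', hlt, this, if_false, if_true]
    linear_combination e (((i : ℕ) + 1 : ZMod 2) * ((j : ℕ) + 1 : ZMod 2))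

lemma sum_succ (k : ℕ) : ∑ j ∈ Finset.range (4 * k), ((j : ZMod 2) + 1) = 0 := by
  induction k with
  | zero => simp
  | succ k ih =>
    rw [show 4 * (k + 1) = 4 * k + 1 + 1 + 1 + 1 by ring]
    rw [Finset.sum_range_succ, Finset.sum_range_succ, Finset.sum_range_succ,
      Finset.sum_range_succ, ih]
    push_cast
    have h2 : (2 : ZMod 2) = 0 := by decide
    linear_combination (8 * (k : ZMod 2) + 5) * h2

lemma rr_sum {k : ℕ} (i : Fin (4 * k)) : ∑ j, rr i j = 0 := by
  have h1 : ∀ j : Fin (4 * k), rr i j = (if i < j then 1 else 0)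
      + ((i : ℕ) + 1 : ZMod 2) * ((j : ℕ) + 1 : ZMod 2)
      + (if j = i then ((i : ℕ) + 1 : ZMod 2) * ((i : ℕ) + 1 : ZMod 2) else 0) := by
    intro j
    by_cases h : i = j
    · subst h
      simp only [rr, if_true, lt_irrefl, if_false]
      have := zmod2_add_self (((i : ℕ) + 1 : ZMod 2) * ((i : ℕ) + 1 : ZMod 2))
      linear_combination -this
    · have h' : ¬ j = i := fun e => h e.symm
      simp [rr, h, h']
  rw [Finset.sum_congr rfl fun j _ => h1 j, Finset.sum_add_distrib, Finset.sum_add_distrib,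
    ← Finset.mul_sum, Fin.sum_univ_eq_sum_range (fun j => ((j : ZMod 2) + 1)), sum_succ,
    Finset.sum_ite_eq' Finset.univ i]
  simp only [Finset.mem_univ, if_true, mul_zero, add_zero]
  have h2 : ∑ j : Fin (4 * k), (if i < j then (1 : ZMod 2) else 0) = ((4 * k - 1 - i : ℕ) : ZMod 2) := by
    rw [Finset.sum_boole]
    congr 1
    have : (Finset.univ.filter fun j : Fin (4 * k) => i < j) = Finset.Ioi i := by
      ext j; simp
    rw [this, Fin.card_Ioi]
  rw [h2]
  have hi := i.isLt
  have hk : (((4 * k - 1 - i : ℕ) : ℕ) : ZMod 2) = (i : ℕ) + 1 := by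
    have h3 : (4 * k - 1 - (i : ℕ)) + (i + 1) = 4 * k := by omega
    have h4 : (((4 * k - 1 - (i : ℕ)) + (i + 1) : ℕ) : ZMod 2) = ((4 * k : ℕ) : ZMod 2) := by
      rw [h3]
    push_cast at h4
    have h5 : (4 : ZMod 2) = 0 := by decide
    have h6 := zmod2_add_self ((i : ℕ) + 1 : ZMod 2)
    rw [h5, zero_mul] at h4
    linear_combination h4 - h6
  rw [hk]
  generalize ((i : ℕ) : ZMod 2) = a
  revert a; decide

/-- The pair of a vertex. -/
def pr {k : ℕ} (x : Fin (8 * k)) : Fin (4 * k) := ⟨x / 2, by omega⟩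

/-- The sign of a vertex in the `l`-th complete bipartite graph. -/
def sg {k : ℕ} (x : Fin (8 * k)) (l : Fin (4 * k)) : ZMod 2 := ((x : ℕ) : ZMod 2) + rr (pr x) l

/-- First class. -/
def SA {k : ℕ} (l : Fin (4 * k)) : Finset (Fin (8 * k)) :=
  Finset.univ.filter fun x => l ≠ pr x ∧ sg x l = 0

/-- Second class. -/
def SB {k : ℕ} (l : Fin (4 * k)) : Finset (Fin (8 * k)) :=
  Finset.univ.filter fun x => l ≠ pr x ∧ sg x l = 1

lemma disj {k : ℕ} (l : Fin (4 * k)) : Disjoint (SA l) (SB l) := by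
  rw [Finset.disjoint_left]
  intro x hx hy
  simp only [SA, SB, Finset.mem_filter] at hx hy
  have := hx.2.2.symm.trans hy.2.2
  exact absurd this (by decide)

lemma exists_sign {k : ℕ} (i l : Fin (4 * k)) (hl : l ≠ i) (c : ZMod 2) :
    ∃ x : Fin (8 * k), pr x = i ∧ sg x l = c := by
  have h0 : ∀ c : ZMod 2, c = 0 ∨ c = 1 := by decide
  set x0 : Fin (8 * k) := ⟨2 * i, by omega⟩ with hx0
  set x1 : Fin (8 * k) := ⟨2 * i + 1, by omega⟩ with hx1
  have p0 : pr x0 = i := by ext; simp [pr, hx0]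
  have p1 : pr x1 = i := by
    ext
    simp only [pr, hx1]
    omega
  have h2 : (2 : ZMod 2) = 0 := by decide
  have s0 : sg x0 l = rr i l := by
    show ((2 * (i : ℕ) : ℕ) : ZMod 2) + rr (pr x0) l = rr i l
    rw [p0]; push_cast; rw [h2, zero_mul, zero_add]
  have s1 : sg x1 l = 1 + rr i l := by
    show ((2 * (i : ℕ) + 1 : ℕ) : ZMod 2) + rr (pr x1) l = 1 + rr i l
    rw [p1]; push_cast; rw [h2, zero_mul, zero_add]
  rcases h0 (rr i l) with h | h <;> rcases h0 c with hc | hc
  · exact ⟨x0, p0, by rw [s0, h, hc]⟩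
  · exact ⟨x1, p1, by rw [s1, h, hc]; decide⟩
  · exact ⟨x1, p1, by rw [s1, h, hc]; decide⟩
  · exact ⟨x0, p0, by rw [s0, h, hc]⟩

lemma exists_other {k : ℕ} (l : Fin (4 * k)) : ∃ i : Fin (4 * k), l ≠ i := by
  have hl := l.isLt
  by_cases h : (l : ℕ) = 0
  · refine ⟨⟨1, by omega⟩, ?_⟩
    intro h'
    have := congrArg Fin.val h'
    simp only at this
    omega
  · refine ⟨⟨0, by omega⟩, ?_⟩
    intro h'
    have := congrArg Fin.val h'
    simp only at this
    omega

lemma SA_ne {k : ℕ} (l : Fin (4 * k)) : (SA l).Nonempty := by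
  obtain ⟨i, hi⟩ := exists_other l
  obtain ⟨x, hx, hs⟩ := exists_sign i l hi 0
  exact ⟨x, by simp only [SA, Finset.mem_filter, Finset.mem_univ, true_and]; rw [hx]; exact ⟨hi, hs⟩⟩

lemma SB_ne {k : ℕ} (l : Fin (4 * k)) : (SB l).Nonempty := by
  obtain ⟨i, hi⟩ := exists_other l
  obtain ⟨x, hx, hs⟩ := exists_sign i l hi 1
  exact ⟨x, by simp only [SB, Finset.mem_filter, Finset.mem_univ, true_and]; rw [hx]; exact ⟨hi, hs⟩⟩

lemma ind_term {k : ℕ} (x y : Fin (8 * k)) (l : Fin (4 * k)) :
    ind (SA l) x * ind (SB l) y + ind (SB l) x * ind (SA l) y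
      = (if l = pr x then 0 else 1) * (if l = pr y then 0 else 1) * (sg x l + sg y l) := by
  have h0 : ∀ c : ZMod 2, c = 0 ∨ c = 1 := by decide
  simp only [ind, SA, SB, Finset.mem_filter, Finset.mem_univ, true_and]
  by_cases h1 : l = pr x
  · simp [h1]
  · by_cases h2 : l = pr y
    · simp [h2]
    · rw [if_neg h1, if_neg h2]
      rcases h0 (sg x l) with hx | hx <;> rcases h0 (sg y l) with hy | hy <;>
        simp [hx, hy, h1, h2] <;> decide

lemma sum_term {k : ℕ} {x y : Fin (8 * k)} (hxy : x ≠ y) :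
    ∑ l : Fin (4 * k), (ind (SA l) x * ind (SB l) y + ind (SB l) x * ind (SA l) y) = 1 := by
  rw [Finset.sum_congr rfl fun l _ => ind_term x y l]
  have h4 : ((4 * k : ℕ) : ZMod 2) = 0 := by
    push_cast
    have h5 : (4 : ZMod 2) = 0 := by decide
    rw [h5, zero_mul]
  by_cases hp : pr x = pr y
  · have hs : (((x : ℕ) : ZMod 2)) + ((y : ℕ) : ZMod 2) = 1 := by
      have h1 : (x : ℕ) / 2 = (y : ℕ) / 2 := congrArg Fin.val hp
      have h2 : (x : ℕ) ≠ y := fun h => hxy (Fin.ext h)
      have h3 : Odd ((x : ℕ) + y) := by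
        rw [Nat.odd_iff]; omega
      have := ZMod.natCast_eq_one_iff_odd.mpr h3
      push_cast at this
      exact this
    have h1 : ∀ l : Fin (4 * k), (if l = pr x then (0 : ZMod 2) else 1) * (if l = pr y then 0 else 1)
        * (sg x l + sg y l) = 1 - (if l = pr x then 1 else 0) := by
      intro l
      have e := zmod2_add_self (rr (pr y) l)
      rw [← hp]
      have h : sg x l + sg y l = 1 := by
        simp only [sg]; rw [hp]; linear_combination hs + e
      rw [h]
      by_cases hl : l = pr x <;> simp [hl]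
    rw [Finset.sum_congr rfl fun l _ => h1 l, Finset.sum_sub_distrib,
      Finset.sum_ite_eq' Finset.univ (pr x)]
    simp only [Finset.sum_const, Finset.card_univ, Fintype.card_fin, nsmul_eq_mul, h4,
      Finset.mem_univ, if_true]
    decide
  · have h1 : ∀ l : Fin (4 * k), (if l = pr x then (0 : ZMod 2) else 1) * (if l = pr y then 0 else 1)
        * (sg x l + sg y l) = (sg x l + sg y l) - (if l = pr x then sg x (pr x) + sg y (pr x) else 0)
          - (if l = pr y then sg x (pr y) + sg y (pr y) else 0) := by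
      intro l
      by_cases hl : l = pr x
      · have hl' : ¬ pr x = pr y := hp
        subst hl
        simp [hl']
      · by_cases hl2 : l = pr y
        · subst hl2
          simp [hl]
        · simp [hl, hl2]
    rw [Finset.sum_congr rfl fun l _ => h1 l, Finset.sum_sub_distrib, Finset.sum_sub_distrib,
      Finset.sum_ite_eq' Finset.univ (pr x), Finset.sum_ite_eq' Finset.univ (pr y)]
    simp only [Finset.mem_univ, if_true]
    have hsum : ∑ l : Fin (4 * k), (sg x l + sg y l) = 0 := by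
      simp only [sg]
      rw [Finset.sum_add_distrib, Finset.sum_add_distrib, Finset.sum_add_distrib, rr_sum, rr_sum]
      simp only [Finset.sum_const, Finset.card_univ, Fintype.card_fin, nsmul_eq_mul, h4]
      ring
    rw [hsum]
    have e1 := rr_swap hp
    have e2 := rr_self (pr x)
    have e3 := rr_self (pr y)
    have e4 := zmod2_add_self (((x : ℕ) : ZMod 2) + ((y : ℕ) : ZMod 2))
    have e5 : (1 : ZMod 2) + 1 = 0 := by decide
    simp only [sg, e2, e3]
    linear_combination (-1 : ZMod 2) * e1 - 2 * e4 + (2 : ZMod 2) * (zmod2_add_self (((x : ℕ) : ZMod 2) + ((y : ℕ) : ZMod 2))) - e4 - e5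

open Classical in
lemma odd_card {k : ℕ} {x y : Fin (8 * k)} (hxy : x ≠ y) :
    Odd (Nat.card {l : Fin (4 * k) // s(x, y) ∈ bip (SA l) (SB l)}) := by
  rw [← ZMod.natCast_eq_one_iff_odd, ← sum_term hxy, Nat.card_eq_fintype_card,
    Fintype.card_subtype, Finset.card_filter, Nat.cast_sum]
  refine Finset.sum_congr rfl fun l _ => ?_
  rw [ind_bip (disj l)]
  by_cases h : s(x, y) ∈ bip (SA l) (SB l) <;> simp [h]

/-- The product cover. -/
def cov (k : ℕ) : Fin (4 * k) × Fin (4 * k) → Box (8 * k) := fun p =>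
  ⟨SA p.1, SB p.1, SA p.2, SB p.2, SA_ne _, SB_ne _, SA_ne _, SB_ne _, disj _, disj _⟩

lemma cov_odd (k : ℕ) : IsOddCover (cov k) := by
  intro e he f hf
  induction e using Sym2.inductionOn with
  | hf x y =>
    induction f using Sym2.inductionOn with
    | hf z w =>
      have hxy : x ≠ y := by simpa using he
      have hzw : z ≠ w := by simpa using hf
      have h1 := odd_card hxy
      have h2 := odd_card hzw
      have e : {i : Fin (4 * k) × Fin (4 * k) // (s(x, y), s(z, w)) ∈ (cov k i).toSet}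
          ≃ {l : Fin (4 * k) // s(x, y) ∈ bip (SA l) (SB l)}
            × {l : Fin (4 * k) // s(z, w) ∈ bip (SA l) (SB l)} :=
        { toFun := fun i => (⟨i.1.1, i.2.1⟩, ⟨i.1.2, i.2.2⟩)
          invFun := fun p => ⟨(p.1.1, p.2.1), ⟨p.1.2, p.2.2⟩⟩
          left_inv := fun i => rfl
          right_inv := fun p => rfl }
      rw [Nat.card_congr e, Nat.card_prod]
      exact h1.mul h2

end Pool.Agent.R71.OC
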