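import Mathlib
import Pool.Agent.R71.OC.Defs
import Pool.Agent.R71.OC.Bridge
import Pool.Agent.R71.OC.Upper

/-!
# `g̃(n)`: bounds, exact values for `8 ∣ n`, asymptotics
-/

namespace Pool.Agent.R71.OC

open Filter Topology

lemma gt_le_card {n : ℕ} {ι : Type} [Fintype ι] {P : ι → Box n} (hP : IsOddCover P) :
    ∃ Q : Fin (Fintype.card ι) → Box n, IsOddCover Q := by
  classical
  let e := (Fintype.equivFin ι).symm
  refine ⟨fun i => P (e i), ?_⟩
  intro x hx y hy
  have h := hP x hx y hy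
  have e' : {i : Fin (Fintype.card ι) // (x, y) ∈ (P (e i)).toSet}
      ≃ {i : ι // (x, y) ∈ (P i).toSet} := e.subtypeEquiv fun i => Iff.rfl
  rw [Nat.card_congr e']
  exact h

lemma bip_res {n N : ℕ} (h : n ≤ N) (A B : Finset (Fin N)) (x y : Fin n) :
    s(x, y) ∈ bip (Finset.univ.filter fun u : Fin n => Fin.castLE h u ∈ A)
      (Finset.univ.filter fun u : Fin n => Fin.castLE h u ∈ B)
      ↔ s(Fin.castLE h x, Fin.castLE h y) ∈ bip A B := by
  rw [mem_bip, mem_bip]
  simp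

lemma bip_ne {n : ℕ} {A B : Finset (Fin n)} {e : Sym2 (Fin n)} (h : e ∈ bip A B) :
    A.Nonempty ∧ B.Nonempty := by
  obtain ⟨x, hx, y, hy, -⟩ := h
  exact ⟨⟨x, hx⟩, ⟨y, hy⟩⟩

lemma restrict {n N m : ℕ} (h : n ≤ N) {P : Fin m → Box N} (hP : IsOddCover P) :
    ∃ m' ≤ m, ∃ Q : Fin m' → Box n, IsOddCover Q := by
  classical
  let rs : Finset (Fin N) → Finset (Fin n) := fun A =>
    Finset.univ.filter fun u : Fin n => Fin.castLE h u ∈ A
  let good : Fin m → Prop := fun i =>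
    (rs (P i).A).Nonempty ∧ (rs (P i).B).Nonempty ∧ (rs (P i).C).Nonempty ∧ (rs (P i).D).Nonempty
  have hdis : ∀ A B : Finset (Fin N), Disjoint A B → Disjoint (rs A) (rs B) := by
    intro A B hAB
    rw [Finset.disjoint_left]
    intro x hx hy
    simp only [rs, Finset.mem_filter, Finset.mem_univ, true_and] at hx hy
    exact Finset.disjoint_left.mp hAB hx hy
  let Q : {i : Fin m // good i} → Box n := fun i =>
    ⟨rs (P i.1).A, rs (P i.1).B, rs (P i.1).C, rs (P i.1).D, i.2.1, i.2.2.1, i.2.2.2.1, i.2.2.2.2,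
      hdis _ _ (P i.1).hAB, hdis _ _ (P i.1).hCD⟩
  have hQ : IsOddCover Q := by
    intro e he f hf
    induction e using Sym2.inductionOn with
    | hf x y =>
      induction f using Sym2.inductionOn with
      | hf z w =>
        have hxy : x ≠ y := by simpa using he
        have hzw : z ≠ w := by simpa using hf
        have he' : s(Fin.castLE h x, Fin.castLE h y) ∈ (⊤ : SimpleGraph (Fin N)).edgeSet := by
          simpa using hxy
        have hf' : s(Fin.castLE h z, Fin.castLE h w) ∈ (⊤ : SimpleGraph (Fin N)).edgeSet := by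
          simpa using hzw
        have hodd := hP _ he' _ hf'
        have key : ∀ i : Fin m, (s(x, y) ∈ bip (rs (P i).A) (rs (P i).B) ∧
            s(z, w) ∈ bip (rs (P i).C) (rs (P i).D)) ↔
            (s(Fin.castLE h x, Fin.castLE h y), s(Fin.castLE h z, Fin.castLE h w))
              ∈ (P i).toSet := by
          intro i
          simp only [Box.toSet, Set.mem_prod, rs, bip_res]
        have e' : {i : {i : Fin m // good i} // (s(x, y), s(z, w)) ∈ (Q i).toSet}
            ≃ {i : Fin m // (s(Fin.castLE h x, Fin.castLE h y),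
                s(Fin.castLE h z, Fin.castLE h w)) ∈ (P i).toSet} :=
          { toFun := fun i => ⟨i.1.1, (key i.1.1).mp i.2⟩
            invFun := fun i => ⟨⟨i.1, (bip_ne ((key i.1).mpr i.2).1).1,
              (bip_ne ((key i.1).mpr i.2).1).2, (bip_ne ((key i.1).mpr i.2).2).1,
              (bip_ne ((key i.1).mpr i.2).2).2⟩, (key i.1).mpr i.2⟩
            left_inv := fun i => rfl
            right_inv := fun i => rfl }
        rw [Nat.card_congr e']
        exact hodd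
  obtain ⟨R, hR⟩ := gt_le_card hQ
  refine ⟨_, ?_, R, hR⟩
  have := Fintype.card_subtype_le good
  simpa using this

lemma exists_cover (n : ℕ) :
    ∃ m' ≤ (4 * ((n + 7) / 8)) ^ 2, ∃ Q : Fin m' → Box n, IsOddCover Q := by
  obtain ⟨R, hR⟩ := gt_le_card (cov_odd ((n + 7) / 8))
  have hn : n ≤ 8 * ((n + 7) / 8) := by omega
  obtain ⟨m', hm', Q, hQ⟩ := restrict hn hR
  refine ⟨m', hm'.trans ?_, Q, hQ⟩
  rw [Fintype.card_prod, Fintype.card_fin, sq]

lemma gt_mem (n : ℕ) : ∃ P : Fin (gt n) → Box n, IsOddCover P := by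
  have hne : {m : ℕ | ∃ P : Fin m → Box n, IsOddCover P}.Nonempty := by
    obtain ⟨m', -, Q, hQ⟩ := exists_cover n
    exact ⟨m', Q, hQ⟩
  exact Nat.sInf_mem hne

lemma gt_le (n : ℕ) : gt n ≤ (4 * ((n + 7) / 8)) ^ 2 := by
  obtain ⟨m', hm', Q, hQ⟩ := exists_cover n
  have hmem : m' ∈ {m : ℕ | ∃ P : Fin m → Box n, IsOddCover P} := ⟨Q, hQ⟩
  exact (Nat.sInf_le hmem).trans hm'

lemma le_gt_odd {n : ℕ} (hn : Odd n) (h3 : 3 ≤ n) : (n / 2) ^ 2 + 1 ≤ gt n := by
  obtain ⟨P, hP⟩ := gt_mem n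
  simpa using lower_odd hP hn h3

lemma le_gt {n : ℕ} : (n / 2) ^ 2 ≤ gt n := by
  rcases Nat.even_or_odd n with hn | hn
  · obtain ⟨P, hP⟩ := gt_mem n
    simpa using lower_even hP hn
  · rcases Nat.lt_or_ge n 3 with h | h
    · have h1 : n / 2 = 0 := by
        obtain ⟨k, hk⟩ := hn
        omega
      rw [h1]; simp
    · exact (Nat.le_succ _).trans (le_gt_odd hn h)

lemma gt_eight (k : ℕ) : gt (8 * k) = (4 * k) ^ 2 := by
  apply le_antisymm
  · have h := gt_le (8 * k)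
    have : (8 * k + 7) / 8 = k := by omega
    rwa [this] at h
  · have h := le_gt (n := 8 * k)
    have : 8 * k / 2 = 4 * k := by omega
    rwa [this] at h

lemma tends : Tendsto (fun n : ℕ => (gt n : ℝ) / (n : ℝ) ^ 2) atTop (𝓝 (1 / 4)) := by
  have h1 : Tendsto (fun n : ℕ => (((n : ℝ) - 1) / (2 * n)) ^ 2) atTop (𝓝 (1 / 4)) := by
    have : Tendsto (fun n : ℕ => (1 / 2 : ℝ) - (1 / 2) * (1 / (n : ℝ))) atTop
        (𝓝 (1 / 2 - (1 / 2) * 0)) :=
      tendsto_const_nhds.sub (tendsto_const_nhds.mul tendsto_one_div_atTop_nhds_zero_nat)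
    have h2 := this.pow 2
    have h3 : ((1 / 2 - (1 / 2) * 0 : ℝ)) ^ 2 = 1 / 4 := by norm_num
    rw [h3] at h2
    refine h2.congr' ?_
    filter_upwards [eventually_gt_atTop 0] with n hn
    have : (n : ℝ) ≠ 0 := by positivity
    congr 1
    field_simp
  have h2 : Tendsto (fun n : ℕ => (((n : ℝ) + 7) / (2 * n)) ^ 2) atTop (𝓝 (1 / 4)) := by
    have : Tendsto (fun n : ℕ => (1 / 2 : ℝ) + (7 / 2) * (1 / (n : ℝ))) atTop
        (𝓝 (1 / 2 + (7 / 2) * 0)) :=
      tendsto_const_nhds.add (tendsto_const_nhds.mul tendsto_one_div_atTop_nhds_zero_nat)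
    have h2 := this.pow 2
    have h3 : ((1 / 2 + (7 / 2) * 0 : ℝ)) ^ 2 = 1 / 4 := by norm_num
    rw [h3] at h2
    refine h2.congr' ?_
    filter_upwards [eventually_gt_atTop 0] with n hn
    have : (n : ℝ) ≠ 0 := by positivity
    congr 1
    field_simp
  refine tendsto_of_tendsto_of_tendsto_of_le_of_le' h1 h2 ?_ ?_
  · filter_upwards [eventually_gt_atTop 0] with n hn
    have hn' : (0 : ℝ) < n := by exact_mod_cast hn
    have h := le_gt (n := n)
    have h3 : ((n : ℝ) - 1) / 2 ≤ ((n / 2 : ℕ) : ℝ) := by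
      have : n ≤ 2 * (n / 2) + 1 := by omega
      have : (n : ℝ) ≤ 2 * ((n / 2 : ℕ) : ℝ) + 1 := by exact_mod_cast this
      linarith
    have h4 : (((n / 2 : ℕ) : ℝ)) ^ 2 ≤ gt n := by exact_mod_cast h
    have h5 : 0 ≤ ((n : ℝ) - 1) / 2 := by
      have : (1 : ℝ) ≤ n := by exact_mod_cast hn
      linarith
    rw [div_pow, mul_pow, div_le_div_iff₀ (by positivity) (by positivity)]
    have h6 : (((n : ℝ) - 1) / 2) ^ 2 ≤ gt n := (pow_le_pow_left₀ h5 h3 2).trans h4
    nlinarith [h6, sq_nonneg (n : ℝ)]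
  · filter_upwards [eventually_gt_atTop 0] with n hn
    have hn' : (0 : ℝ) < n := by exact_mod_cast hn
    have h := gt_le n
    have h3 : ((4 * ((n + 7) / 8) : ℕ) : ℝ) ≤ ((n : ℝ) + 7) / 2 := by
      have : 2 * (4 * ((n + 7) / 8)) ≤ n + 7 := by omega
      have : 2 * ((4 * ((n + 7) / 8) : ℕ) : ℝ) ≤ n + 7 := by exact_mod_cast this
      linarith
    have h4 : (gt n : ℝ) ≤ ((4 * ((n + 7) / 8) : ℕ) : ℝ) ^ 2 := by exact_mod_cast h
    have h6 : (gt n : ℝ) ≤ (((n : ℝ) + 7) / 2) ^ 2 :=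
      h4.trans (pow_le_pow_left₀ (by positivity) h3 2)
    rw [div_pow, mul_pow, div_le_div_iff₀ (by positivity) (by positivity)]
    nlinarith [h6, sq_nonneg (n : ℝ)]

end Pool.Agent.R71.OC
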